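import Pool.Agent.H620.Pre.Almost

/-!
# Almost invariant sets of the `3x+1` function and circuits of small depth: a complete dichotomy

Let `T 1` be the `3x+1` function `n / 2`, `(3 n + 1) / 2` and `T (-1)` the `3x-1` function `n / 2`, `(3 n - 1) / 2` (that is, the
`3x+1` function on the negative integers). A set `S` of natural numbers is almost invariant if `n ∈ S ↔ T s n ∈ S` for all
but finitely many `n`. Examples: the integers with finite total stopping time, the basins of cycles, the starting values of
unbounded trajectories; but also the predecessor set of an integer `a`, the set of the `n` whose trajectory meets a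
finite set `F` for the first time in a given element, the set of the `n` whose trajectory enters a cycle at a given point,
finite modifications and finite Boolean combinations of such sets.

Theorem. Let `S` be almost invariant.

(1) `S` has a natural density `δ`. If infinitely many integers prime to `3` are in `S` then `δ > 0`; if infinitely many
integers prime to `3` are not in `S` then `δ < 1`.

(2) If only finitely many integers prime to `3` are in `S`, or only finitely many are in the complement, then `S` or the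
complement is contained in finitely many geometric progressions `2 ^ j m`, and `S` is in (nonuniform) `AC0`. In all other cases
`S` is hard: for all `0 < γ < 1 / 2`,

(a) its total influence on the `k` lowest binary digits, that is the mean number of the binary digits of `n < 2 ^ k` whose
change moves `n` from the set to the complement or back, is larger than `k ^ γ` for infinitely many `k`;

(b) for infinitely many `k` and all `D ≥ 2` with `(D - 1) (log log k + 1) ≤ γ log k`, each circuit of depth at most `D` (with gates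
NOT, AND, OR of unbounded fan-in) and size at most `exp (k ^ (γ / (D - 1)))` is wrong about the membership in the set for
more than `2 ^ k / k ^ (1 - γ)` of the `n < 2 ^ k`.

(3) All total stopping times are finite if and only if the set of the `n` with finite total stopping time is in `AC0`.

Proof. Let `X₀` bound the exceptional `n`. Choose `X₁` larger than all elements of the cycles that have an element `≤ X₀`. For
`n > 2 X₁` the membership depends only on the tail of the trajectory and on the set of its terms `≤ 2 X₁`: if the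
trajectory comes below `X₀`, the membership is that of the first term `≤ X₀`; of two candidates for this first term each
would be a term of the trajectory of the other, so both are in a cycle, and then the last term outside of this
cycle, which is `≤ 2 X₁`, determines the first term `≤ X₀`. By inclusion and exclusion the density of such a set exists, as the
densities of invariant sets and of the sets of the integers whose trajectory meets a finite set exist (earlier
theorems of the library). If `b` prime to `3` is in `S` and large, then for some `i` no integer `≤ 2 X₁` reaches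
`b' = 2 ^ i b` (a trajectory that contains all `2 ^ i b` would be periodic), so the predecessors of `b'`, which have a positive density,
have the same tail and the same small terms as `b` and are in `S`. Hence (1), and (2) follows from the lower bound for the total
influence of eventually invariant families (`influence_fam`).
-/

set_option autoImplicit false

namespace Pool.Agent.Results.MP_a1568a_nt.AlmostInvariantSets

open Filter Topology
open DomAC0 (Circuit)

/-- For `s = 1` the `3x+1` function `n / 2`, `(3 n + 1) / 2`; for `s = -1` the `3x-1` function `n / 2`, `(3 n - 1) / 2`. -/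
def T (s : ℤ) (n : ℕ) : ℕ := if n % 2 = 0 then n / 2 else ((3 * (n : ℤ) + s) / 2).toNat

/-- `S` is almost invariant: `n ∈ S ↔ T s n ∈ S` for all but finitely many `n`. -/
def AlmostInvariant (s : ℤ) (S : Set ℕ) : Prop := {n : ℕ | ¬ (n ∈ S ↔ T s n ∈ S)}.Finite

/-- `S` is trivial: only finitely many integers prime to `3` are in `S`, or only finitely many are not in `S`. -/
def Trivial (S : Set ℕ) : Prop := {n : ℕ | ¬ 3 ∣ n ∧ n ∈ S}.Finite ∨ {n : ℕ | ¬ 3 ∣ n ∧ n ∉ S}.Finite

/-- `S` has the natural density `δ`. -/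
def HasDensity (S : Set ℕ) (δ : ℝ) : Prop :=
  Tendsto (fun N : ℕ => ({n : ℕ | 1 ≤ n ∧ n ≤ N ∧ n ∈ S}.ncard : ℝ) / N) atTop (𝓝 δ)

/-- The total stopping time of `n` is finite. -/
def FiniteTime (n : ℕ) : Prop := ∃ k : ℕ, (T 1)^[k] n = 1

/-- The `k` lowest binary digits of `n`. -/
def digits (k n : ℕ) : Fin k → Bool := fun i => n.testBit i

/-- The total influence of `S` on the integers with `k` binary digits: the mean, for `n < 2 ^ k`, of the number of the
`i < k` such that exactly one of `n` and the integer `n xor 2 ^ i`, obtained by changing the digit `i` of `n`, is in `S`. -/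
noncomputable def influence (S : Set ℕ) (k : ℕ) : ℝ :=
  ({p : ℕ × ℕ | p.1 < 2 ^ k ∧ p.2 < k ∧ ¬ (p.1 ∈ S ↔ p.1 ^^^ 2 ^ p.2 ∈ S)}.ncard : ℝ) / 2 ^ k

/-- The number of the `n < 2 ^ k` for which the circuit `Γ` is wrong about the membership in `S`. -/
noncomputable def errors (S : Set ℕ) {k : ℕ} (Γ : Circuit (Fin k)) : ℕ :=
  {n : ℕ | n < 2 ^ k ∧ ¬ (Γ.eval (digits k n) = true ↔ n ∈ S)}.ncard

/-- `S` is hard: for each `0 < c < 1 / 2`, the total influence of `S` is larger than `k ^ c` for infinitely many `k`, and, for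
infinitely many `k` and all `D ≥ 2` with `(D - 1) (log log k + 1) ≤ c log k`, each circuit of depth at most `D` and size at
most `exp (k ^ (c / (D - 1)))` is wrong about the membership in `S` for more than `2 ^ k / k ^ (1 - c)` of the `n < 2 ^ k`. -/
def Hard (S : Set ℕ) : Prop := ∀ c : ℝ, 0 < c → c < 1 / 2 →
  (∃ᶠ k : ℕ in atTop, (k : ℝ) ^ c < influence S k) ∧
  ∃ᶠ k : ℕ in atTop, ∀ D : ℕ, 2 ≤ D → ((D : ℝ) - 1) * (Real.log (Real.log k) + 1) ≤ c * Real.log k →
    ∀ Γ : Circuit (Fin k), Γ.depth ≤ D → (Γ.size : ℝ) ≤ Real.exp ((k : ℝ) ^ (c / ((D : ℝ) - 1))) →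
      (2 : ℝ) ^ k / (k : ℝ) ^ (1 - c) < errors S Γ

/-- `S` is in `AC0`: the membership of the integers `1 ≤ n < 2 ^ k` is decided by circuits of constant depth and polynomial
size. -/
def AC0 (S : Set ℕ) : Prop :=
  ∃ D A : ℕ, ∀ k : ℕ, 1 ≤ k → ∃ Γ : Circuit (Fin k), Γ.depth ≤ D ∧ Γ.size ≤ k ^ A ∧
    ∀ n, 1 ≤ n → n < 2 ^ k → (Γ.eval (digits k n) = true ↔ n ∈ S)

/-- For all large `k`, the membership of the integers `1 ≤ n < 2 ^ k` in `S` is decided by circuits of polynomial size and
of depth at most `a log k / log log k`, where `a < 1 / 2`. -/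
def Poly (S : Set ℕ) : Prop :=
  ∃ (A : ℕ) (a : ℝ), a < 1 / 2 ∧ ∀ᶠ k : ℕ in atTop, ∃ Γ : Circuit (Fin k), Γ.size ≤ k ^ A ∧
    (Γ.depth : ℝ) ≤ a * (Real.log k / Real.log (Real.log k)) ∧
    ∀ n, 1 ≤ n → n < 2 ^ k → (Γ.eval (digits k n) = true ↔ n ∈ S)

/-- For some `0 < c < 1 / 2` and all large `k` there are a `D ≥ 2` with `(D - 1) (log log k + 1) ≤ c log k` and a circuit of
depth at most `D` and size at most `exp (k ^ (c / (D - 1)))` that is wrong about the membership in `S` for at most
`2 ^ k / k ^ (1 - c)` of the `n < 2 ^ k`. -/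
def Approx (S : Set ℕ) : Prop :=
  ∃ c : ℝ, 0 < c ∧ c < 1 / 2 ∧ ∀ᶠ k : ℕ in atTop, ∃ D : ℕ, 2 ≤ D ∧
    ((D : ℝ) - 1) * (Real.log (Real.log k) + 1) ≤ c * Real.log k ∧
    ∃ Γ : Circuit (Fin k), Γ.depth ≤ D ∧ (Γ.size : ℝ) ≤ Real.exp ((k : ℝ) ^ (c / ((D : ℝ) - 1))) ∧
      (errors S Γ : ℝ) ≤ (2 : ℝ) ^ k / (k : ℝ) ^ (1 - c)

open Pool.Agent.H620 Pool.Agent.H620.Pre

theorem T_eq : T = Tail.Ts := rfl

theorem hard_of {S : Set ℕ} (h : Inf2.Large (fun n => n ∈ S)) : Hard S :=
  fun _ h0 h1 => ⟨Inf2.large_infl h h1, Inf2.large_depth h h0 h1⟩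

theorem fin_iff (P : ℕ → Prop) : {n : ℕ | ¬ 3 ∣ n ∧ P n}.Finite ↔ ∃ X : ℕ, ∀ n, P n → ¬ 3 ∣ n → n ≤ X := by
  constructor
  · intro h
    obtain ⟨X, hX⟩ := h.bddAbove
    exact ⟨X, fun n h1 h2 => hX ⟨h2, h1⟩⟩
  · rintro ⟨X, hX⟩
    exact (Set.finite_Iic X).subset fun n h => hX n h.2 h.1

theorem almost {s : ℤ} {S : Set ℕ} (h : AlmostInvariant s S) : ∃ X₀ : ℕ, ∀ n : ℕ, X₀ < n → (n ∈ S ↔ Tail.Ts s n ∈ S) := by
  obtain ⟨X, hX⟩ := h.bddAbove
  refine ⟨X, fun n hn => ?_⟩
  by_contra hcon
  exact absurd (hX hcon) (not_le.2 hn)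

theorem triv_iff (S : Set ℕ) : Trivial S ↔
    ((∃ X : ℕ, ∀ n ∈ S, ¬ 3 ∣ n → n ≤ X) ∨ (∃ X : ℕ, ∀ n ∉ S, ¬ 3 ∣ n → n ≤ X)) :=
  or_congr (fin_iff _) (fin_iff _)

theorem unb {P : ℕ → Prop} (h : ¬ {n : ℕ | ¬ 3 ∣ n ∧ P n}.Finite) (X : ℕ) : ∃ n, P n ∧ ¬ 3 ∣ n ∧ X < n := by
  by_contra hcon
  push Not at hcon
  exact h ((fin_iff P).2 ⟨X, fun n h1 h2 => hcon n h1 h2⟩)

theorem part {s : ℤ} (hs : s = 1 ∨ s = -1) {S : Set ℕ} (h : AlmostInvariant s S) :
    (¬ Trivial S → Hard S) ∧ List.TFAE [Trivial S, AC0 S, Poly S, Approx S] := by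
  obtain ⟨X₀, hX⟩ := almost h
  have h1 : ¬ Trivial S → Inf2.Large (fun n => n ∈ S) := by
    intro g
    rw [triv_iff] at g
    rcases Tail.al_dichotomy hs hX with h1 | h1 | h1
    · exact absurd (Or.inl h1) g
    · exact absurd (Or.inr h1) g
    · exact h1
  exact ⟨fun g => hard_of (h1 g), Inf2.tfae_of (S := S) (fun g => Tail.al_ac0 hs hX ((triv_iff S).1 g)) h1⟩

theorem T_one {n : ℕ} (hn : 1 ≤ n) : 1 ≤ T 1 n := by
  unfold T
  split_ifs <;> omega

theorem finite_inv {n : ℕ} : FiniteTime n ↔ FiniteTime (T 1 n) := by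
  constructor
  · rintro ⟨k, hk⟩
    rcases k with _ | k
    · refine ⟨1, ?_⟩
      have h1 : n = 1 := hk
      subst h1
      decide
    · exact ⟨k, by rwa [Function.iterate_succ_apply] at hk⟩
  · rintro ⟨k, hk⟩
    exact ⟨k + 1, by rwa [Function.iterate_succ_apply]⟩

theorem conv_inv : AlmostInvariant 1 {n | FiniteTime n} := by
  have : {n : ℕ | ¬ (n ∈ {n | FiniteTime n} ↔ T 1 n ∈ {n | FiniteTime n})} = ∅ := by
    ext n
    simp only [Set.mem_ofPred_eq, Set.mem_empty_iff_false, iff_false, not_not]
    exact finite_inv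
  unfold AlmostInvariant
  rw [this]
  exact Set.finite_empty

theorem pow_one (i : ℕ) : FiniteTime (2 ^ i) := by
  induction i with
  | zero => exact ⟨0, rfl⟩
  | succ i ih =>
    rw [finite_inv]
    have : T 1 (2 ^ (i + 1)) = 2 ^ i := by
      unfold T
      have h : 2 ^ (i + 1) = 2 * 2 ^ i := by ring
      rw [h, if_pos (by omega)]
      omega
    rw [this]
    exact ih

theorem not_three_pow (i : ℕ) : ¬ 3 ∣ 2 ^ i := fun h => by
  have := Nat.prime_three.dvd_of_dvd_pow h
  omega

/-- a number which does not reach `1` gives infinitely many which are prime to `3` -/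
theorem many {m : ℕ} (hm : 1 ≤ m) (h : ¬ FiniteTime m) : ¬ {n : ℕ | ¬ 3 ∣ n ∧ ¬ FiniteTime n}.Finite := by
  -- a number prime to `3`
  obtain ⟨b, hb1, hb3, hb⟩ : ∃ b : ℕ, 1 ≤ b ∧ ¬ 3 ∣ b ∧ ¬ FiniteTime b := by
    obtain ⟨j, q, h2, rfl⟩ := Nat.exists_eq_two_pow_mul_odd (n := m) (by omega)
    have h2' := Nat.odd_iff.1 h2
    have hq : ¬ FiniteTime q := by
      intro g
      apply h
      clear h hm
      induction j with
      | zero => simpa using g
      | succ j ih =>
        rw [finite_inv]
        have : T 1 (2 ^ (j + 1) * q) = 2 ^ j * q := by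
          unfold T
          have h : 2 ^ (j + 1) * q = 2 * (2 ^ j * q) := by ring
          rw [h, if_pos (by omega)]
          omega
        rw [this]
        exact ih
    refine ⟨T 1 q, T_one (by omega), ?_, fun g => hq (finite_inv.2 g)⟩
    unfold T
    rw [if_neg (by omega)]
    omega
  have hall : ∀ i : ℕ, ¬ FiniteTime (2 ^ i * b) := by
    intro i
    induction i with
    | zero => simpa using hb
    | succ i ih =>
      rw [finite_inv]
      have : T 1 (2 ^ (i + 1) * b) = 2 ^ i * b := by
        unfold T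
        have h : 2 ^ (i + 1) * b = 2 * (2 ^ i * b) := by ring
        rw [h, if_pos (by omega)]
        omega
      rw [this]
      exact ih
  intro hf
  obtain ⟨X, hX⟩ := hf.bddAbove
  have h1 := hX (a := 2 ^ X * b) ⟨fun g => by
    rcases Nat.prime_three.dvd_mul.1 g with g | g
    · exact not_three_pow X g
    · exact hb3 g, hall X⟩
  have h2 : X < 2 ^ X := Nat.lt_two_pow_self
  have h3 : 2 ^ X * 1 ≤ 2 ^ X * b := Nat.mul_le_mul_left _ hb1
  omega

theorem conv_triv : (∀ n, 1 ≤ n → FiniteTime n) ↔ Trivial {n | FiniteTime n} := by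
  constructor
  · intro h
    right
    refine (Set.finite_singleton 0).subset ?_
    rintro n ⟨_, h2⟩
    by_contra h0
    exact h2 (h n (Nat.one_le_iff_ne_zero.2 h0))
  · rintro (h | h)
    · exfalso
      obtain ⟨X, hX⟩ := h.bddAbove
      have h1 := hX (a := 2 ^ X) ⟨not_three_pow X, pow_one X⟩
      have h2 : X < 2 ^ X := Nat.lt_two_pow_self
      omega
    · intro n hn
      by_contra hcon
      exact many hn hcon h

/-- Let `s = 1` or `s = -1` and let `S` be almost invariant. (1) `S` has a natural density `δ`, which is positive if infinitely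
many integers prime to `3` are in `S`, and less than `1` if infinitely many are not in `S`. (2) If `S` is not trivial then it is
hard. The following are equivalent: `S` is trivial; `S` is in `AC0`; `S` is decided by circuits of polynomial size and
depth at most `a log k / log log k`, where `a < 1 / 2`; `S` is decided up to a proportion `1 / k ^ (1 - c)` of exceptions by
circuits of the size and depth in the definition of `Hard`. (3) The same conditions, for the set of the `n` with finite
total stopping time, are equivalent to the finiteness of all total stopping times. -/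
theorem result :
    (∀ s : ℤ, (s = 1 ∨ s = -1) → ∀ S : Set ℕ, AlmostInvariant s S →
      (∃ δ : ℝ, HasDensity S δ ∧ ({n : ℕ | ¬ 3 ∣ n ∧ n ∈ S}.Infinite → 0 < δ) ∧
        ({n : ℕ | ¬ 3 ∣ n ∧ n ∉ S}.Infinite → δ < 1)) ∧
      (¬ Trivial S → Hard S) ∧ List.TFAE [Trivial S, AC0 S, Poly S, Approx S]) ∧
    List.TFAE [∀ n, 1 ≤ n → FiniteTime n, AC0 {n | FiniteTime n}, Poly {n | FiniteTime n}, Approx {n | FiniteTime n}] := by
  refine ⟨fun s hs S h => ⟨?_, (part hs h).1, (part hs h).2⟩, ?_⟩
  · obtain ⟨X₀, hX⟩ := almost h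
    obtain ⟨l, hl, h1⟩ := Tail.al_dn hs hX
    obtain ⟨l', hl', h1'⟩ := Tail.al_dn (S := Sᶜ) (X₀ := X₀) hs fun n hn => not_congr (hX n hn)
    have hsum := dn_add hl hl' (fun n _ g1 g2 => g2 g1)
    refine ⟨l, hl, fun g => h1 fun X => ?_, fun g => ?_⟩
    · obtain ⟨n, h2, h3, h4⟩ := unb (P := fun n => n ∈ S) g X
      exact ⟨n, h2, h3, h4⟩
    · have := h1' fun X => by
        obtain ⟨n, h2, h3, h4⟩ := unb (P := fun n => n ∉ S) g X
        exact ⟨n, h2, h3, h4⟩
      linarith
  · rw [conv_triv]
    exact (part (Or.inl rfl) conv_inv).2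

end Pool.Agent.Results.MP_a1568a_nt.AlmostInvariantSets
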