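import Pool.Agent.H620.Thr.Dens
import Pool.Agent.H620.Inf2.Depth

/-!
# The critical threshold `σ(n) ≤ 2 / log (4/3) log n + c` is not decided by circuits of small depth

Let `σ(n)` be the total stopping time of the `3x+1` function `T`. For `a < 2 / log (4/3)` the bound `σ(n) ≤ a log n` fails for
almost all `n`, and for `a > 2 / log (4/3)` it is true for almost all the `n` with finite `σ(n)`. Here the critical constant
`2 / log (4/3) = 6.952...` is considered. For each real `c` the set of the `n` with `σ(n) ≤ 2 / log (4/3) log n + c` is
hard in the following sense, unconditionally: for each `0 < g < 1 / 2`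

(a) its total influence on the `k` lowest binary digits, that is the mean number of the binary digits of `n < 2 ^ k` whose
change moves `n` from the set to its complement or back, is larger than `k ^ g`, for infinitely many `k`;

(b) for infinitely many `k` and all `D ≥ 2` with `(D - 1) (log log k + 1) ≤ g log k`, each circuit of depth at most `D` (with
gates NOT, AND, OR of unbounded fan-in) and size at most `exp (k ^ (g / (D - 1)))` is wrong about the membership in the set
for more than `2 ^ k / k ^ (1 - g)` of the `n < 2 ^ k`.

In particular, whether the total stopping time is larger than its expected value `2 / log (4/3) log n` is not decided by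
circuits of polynomial size and depth at most `a log k / log log k`, `a < 1 / 2`, not even on average.

Proof. The set is not invariant under `T`. But if `n = 2 ^ J U + L` has a trajectory with `o` odd terms among the first `J`
terms then `T ^ J n` is close to `3 ^ o U`, so that for `o = J / 2` (and only then) the bounds for `n` and for `T ^ J n` are the
same: this is the critical threshold. If the total influence is small then there is a window `[J, J + b)` of digits with small
influences. Replace the bound by a constant on the intervals `[2 ^ (J + b) U, 2 ^ (J + b) (U + 1))`; this changes the set in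
few intervals only. By the rate of coalescence the membership of `n` is given, for most `n`, by the majority in the part of
the partition of the low digits `L` by the number `o` and by the quotient of the value of `T ^ J L` by `3 ^ μ`. Comparing
two such partitions, with pairs of levels `{o, o + 1}` shifted by one, the membership is seen to be a function of the integral
part of `3 ^ (J / 2 - μ) n / 2 ^ J` only, for most `n`, and the same as the membership of `3 ^ μ q + r` for this integral part
`q`: the middle level `J / 2` is typical. The composition of these statements through all scales contradicts the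
existence of the natural density of the set, which is `δ / 2` by the law of the total stopping time (library), where `δ > 0` is
the density of the `n` with finite `σ(n)`.
-/

set_option autoImplicit false

namespace Pool.Agent.Results.MP_a1568a_nt.CriticalThreshold

open Filter
open DomAC0 (Circuit)

/-- The `3x+1` function. -/
def T (n : ℕ) : ℕ := if n % 2 = 0 then n / 2 else (3 * n + 1) / 2

/-- `t` is the total stopping time of `n`. -/
def IsTotalStoppingTime (n t : ℕ) : Prop := T^[t] n = 1 ∧ ∀ i < t, T^[i] n ≠ 1

/-- The positive integers `n` with finite total stopping time `σ(n) ≤ 2 / log (4/3) * log n + c`. -/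
def Below (c : ℝ) : Set ℕ :=
  {n | 1 ≤ n ∧ ∃ t : ℕ, IsTotalStoppingTime n t ∧ (t : ℝ) ≤ 2 / Real.log (4 / 3) * Real.log n + c}

/-- The `k` lowest binary digits of `n`. -/
def digits (k n : ℕ) : Fin k → Bool := fun i => n.testBit i

/-- The total influence of `S` on the integers with `k` binary digits: the mean, for `n < 2 ^ k`, of the number of the
`i < k` such that exactly one of `n` and the integer `n xor 2 ^ i`, obtained by changing the digit `i` of `n`, is in `S`. -/
noncomputable def influence (S : Set ℕ) (k : ℕ) : ℝ :=
  ({p : ℕ × ℕ | p.1 < 2 ^ k ∧ p.2 < k ∧ ¬ (p.1 ∈ S ↔ p.1 ^^^ 2 ^ p.2 ∈ S)}.ncard : ℝ) / 2 ^ k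

/-- The number of the `n < 2 ^ k` for which the circuit `Γ` is wrong about the membership in `S`. -/
noncomputable def errors (S : Set ℕ) {k : ℕ} (Γ : Circuit (Fin k)) : ℕ :=
  {n : ℕ | n < 2 ^ k ∧ ¬ (Γ.eval (digits k n) = true ↔ n ∈ S)}.ncard

/-- `S` is hard: for each `0 < g < 1 / 2`, the total influence of `S` is larger than `k ^ g` for infinitely many `k`, and, for
infinitely many `k` and all `D ≥ 2` with `(D - 1) (log log k + 1) ≤ g log k`, each circuit of depth at most `D` and size at
most `exp (k ^ (g / (D - 1)))` is wrong about the membership in `S` for more than `2 ^ k / k ^ (1 - g)` of the `n < 2 ^ k`. -/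
def Hard (S : Set ℕ) : Prop := ∀ g : ℝ, 0 < g → g < 1 / 2 →
  (∃ᶠ k : ℕ in atTop, (k : ℝ) ^ g < influence S k) ∧
  ∃ᶠ k : ℕ in atTop, ∀ D : ℕ, 2 ≤ D → ((D : ℝ) - 1) * (Real.log (Real.log k) + 1) ≤ g * Real.log k →
    ∀ Γ : Circuit (Fin k), Γ.depth ≤ D → (Γ.size : ℝ) ≤ Real.exp ((k : ℝ) ^ (g / ((D : ℝ) - 1))) →
      (2 : ℝ) ^ k / (k : ℝ) ^ (1 - g) < errors S Γ

open Pool.Agent.H620

theorem Hard.of_large {S : Set ℕ} (h : Inf2.Large (fun n => n ∈ S)) : Hard S :=
  fun _ hc0 hc => ⟨Inf2.large_infl h hc, Inf2.large_depth h hc0 hc⟩

theorem mem_iff (c : ℝ) {n : ℕ} (hn : 1 ≤ n) :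
    n ∈ Below c ↔ Thr.RT (2 / Real.log (4 / 3) * Real.log n + c) (n : ℤ) := by
  unfold Thr.RT
  rw [Int.toNat_natCast]
  constructor
  · rintro ⟨_, t, ht, h⟩
    exact ⟨t, h, ht.1⟩
  · rintro ⟨j, h1, h2⟩
    obtain ⟨k, hk, g⟩ := Thr.first_T h2
    have : (k : ℝ) ≤ j := by exact_mod_cast hk
    exact ⟨hn, k, g, by linarith⟩

/-- **The critical threshold.** For every real `c` the set of the positive integers `n` with total stopping time
`σ(n) ≤ 2 / log (4/3) log n + c` is hard: large total influence, and not decided by circuits of small depth, not even
on average. -/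
theorem result : ∀ c : ℝ, Hard (Below c) := fun c =>
  Hard.of_large (Inf2.Large.congr (fun _ hn => mem_iff c hn) (Thr.large_T c))

end Pool.Agent.Results.MP_a1568a_nt.CriticalThreshold
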