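import Pool.Agent.H618.PM.Except

set_option autoImplicit false

/-!
# The logarithmic bound for stopping times holds outside a very small set of polynomials

In the polynomial model of the `3x+1` map over `F_2[x]` the degree of `f` has the role of `log n`. So the question
is whether the total stopping time satisfies `sigma(f) ≤ B deg f` with a constant `B`. (In this model the answer is
negative: there are infinitely many polynomials with `sigma(f) ≥ c deg f log (deg f)`.) We prove that for every
constant `B > 2` the bound holds for all polynomials of degree `n` outside a set of at most `2^(n - c n^(2/3))`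
elements. As most polynomials have `sigma(f)` close to `2 deg f`, the condition `B > 2` is necessary. More
generally the number of polynomials `f` of degree `n` with `sigma(f) ≥ lam n` is at most
`2^(n - c (lam n)^(2/3))`, uniformly for all `lam ≥ B`; for `lam` of the order `n^(1/2)` this contains the
worst case bound `sigma(f) = O(n^(3/2))` of Alon, Behajaina and Paran.

Proof. While the degree is `a`, the next `a` parities are free, and each polynomial of degree `b` is reached from at
most `2^(a - b)` polynomials of degree `a` after `a` steps. So up to a factor `n^(O(log n))`, a polynomial with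
`sigma(f) ≥ lam n` costs the probability of a large deviation in the parities at some degree `a` where there can
be a stopping time of the order `lam n`; by the worst case bound, which we also prove, `a ≥ c (lam n)^(2/3)`.
-/

namespace Pool.Agent.Results.MP_a1568a_nt.PolynomialExceptionalSet

open Polynomial

/-- the polynomial analogue of the `3x+1` function `T`: `((x+1) f + 1)/x` if `f` has constant term `1`, and `f/x`
if it has constant term `0` (`divX` is the quotient by `x`) -/
noncomputable def T (f : (ZMod 2)[X]) : (ZMod 2)[X] :=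
  if f.coeff 0 = 1 then ((X + 1) * f + 1).divX else f.divX

/-- the total stopping time -/
noncomputable def sigma (f : (ZMod 2)[X]) : ℕ := sInf {k : ℕ | T^[k] f = 1}

/-- All nonzero polynomials reach `1`, and for every `B > 2` there is `c > 0` such that for all large `n` and
all `lam ≥ B` at most `2 ^ (n - c (lam n) ^ (2/3))` polynomials of degree `n` have total stopping time at least
`lam n`. -/
theorem result : (∀ f : (ZMod 2)[X], f ≠ 0 → ∃ k : ℕ, T^[k] f = 1) ∧
    ∀ B : ℝ, 2 < B → ∃ c : ℝ, 0 < c ∧ ∃ n₀ : ℕ, ∀ n : ℕ, n₀ ≤ n → ∀ lam : ℝ, B ≤ lam →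
      ({f : (ZMod 2)[X] | f.degree = n ∧ lam * n ≤ sigma f}.ncard : ℝ) ≤
        2 ^ ((n : ℝ) - c * (lam * n) ^ ((2 : ℝ) / 3)) := by
  classical
  refine ⟨fun f hf => ⟨f.natDegree + Pool.Agent.H618.PM.nu f, (Pool.Agent.H618.PM.S_reach _ f hf rfl _).2 le_rfl⟩, ?_⟩
  intro B hB
  obtain ⟨c, hc, n₀, h⟩ := Pool.Agent.H618.PM.except_upper (B - 1) (by linarith)
  refine ⟨c * (1 / 2) ^ ((2 : ℝ) / 3), by positivity, n₀, ?_⟩
  intro n hn lam hlam
  have hset : {f : (ZMod 2)[X] | f.degree = n ∧ lam * n ≤ sigma f} =
      ((Pool.Agent.Q74.FC.D n).filter (fun f => lam * n ≤ sigma f) : Finset ((ZMod 2)[X])) := by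
    ext f
    simp only [Set.mem_ofPred_eq, Finset.coe_filter, Pool.Agent.Q74.FC.mem_D]
  rw [hset, Set.ncard_coe_finset]
  refine (h n hn (lam - 1) (by linarith) _ ?_).trans ?_
  · intro f hf
    rw [Finset.mem_filter] at hf
    refine ⟨hf.1, ?_⟩
    have h3 := Pool.Agent.Q74.FC.mem_D'.1 hf.1
    have h4 : sigma f = f.natDegree + Pool.Agent.H618.PM.nu f := Pool.Agent.H618.PM.sm_eq h3.1
    have h5 := hf.2
    rw [h4, h3.2] at h5
    push_cast at h5
    linarith
  · apply Real.rpow_le_rpow_of_exponent_le (by norm_num)
    have h6 : (1 / 2 : ℝ) * (lam * n) ≤ (lam - 1) * n := by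
      have : (0 : ℝ) ≤ n := Nat.cast_nonneg n
      nlinarith
    have h7 : ((1 / 2 : ℝ) * (lam * n)) ^ ((2 : ℝ) / 3) ≤ ((lam - 1) * n) ^ ((2 : ℝ) / 3) := by
      apply Real.rpow_le_rpow _ h6 (by norm_num)
      have : (0 : ℝ) ≤ n := Nat.cast_nonneg n
      have : 0 ≤ lam := by linarith
      positivity
    rw [Real.mul_rpow (by norm_num) (mul_nonneg (by linarith) (Nat.cast_nonneg n))] at h7
    have h8 := mul_le_mul_of_nonneg_left h7 hc.le
    linarith

end Pool.Agent.Results.MP_a1568a_nt.PolynomialExceptionalSet
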